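import Mathlib

/-! # The three-term recurrence in `m` of the Boros–Moll numbers (Zeilberger certificate) -/

namespace V11294.BM

/-- The Boros–Moll numbers `d_ℓ(m) = 2^{-2m} ∑_{k=ℓ}^m 2^k C(2m-2k,m-k) C(m+k,m) C(k,ℓ)`. -/
def bm (l m : ℕ) : ℚ :=
  (∑ k ∈ Finset.Icc l m,
    (2 : ℚ) ^ k * ((2 * m - 2 * k).choose (m - k) : ℚ) * ((m + k).choose m : ℚ) *
      (k.choose l : ℚ)) / 2 ^ (2 * m)

/-- the summand in factorial form, `k = l+i`, `m = l+i+j`. -/
def t (l i j : ℕ) : ℚ :=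
  2 ^ (l + i) * (2 * j).factorial * (2 * l + 2 * i + j).factorial /
    ((j.factorial : ℚ) ^ 2 * (l + i + j).factorial * l.factorial * i.factorial) / 4 ^ (l + i + j)

lemma t_pos (l i j : ℕ) : 0 < t l i j := by
  unfold t; positivity

lemma t_j (l i j : ℕ) :
    t l i (j + 1) * (2 * (j + 1) * (l + i + j + 1)) =
      t l i j * ((2 * j + 1) * (2 * l + 2 * i + j + 1)) := by
  unfold t
  have e1 : 2 * (j + 1) = 2 * j + 1 + 1 := by ring
  have e2 : 2 * l + 2 * i + (j + 1) = 2 * l + 2 * i + j + 1 := by ring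
  have e3 : l + i + (j + 1) = l + i + j + 1 := by ring
  rw [e1, e2, e3]
  simp only [Nat.factorial_succ, pow_succ]
  push_cast
  field_simp
  ring

lemma t_i (l i j : ℕ) :
    t l (i + 1) j * ((2 * j + 1) * (i + 1)) =
      t l i (j + 1) * ((j + 1) * (2 * l + 2 * i + j + 2)) := by
  unfold t
  have e1 : 2 * (j + 1) = 2 * j + 1 + 1 := by ring
  have e2 : 2 * l + 2 * (i + 1) + j = 2 * l + 2 * i + j + 1 + 1 := by ring
  have e3 : 2 * l + 2 * i + (j + 1) = 2 * l + 2 * i + j + 1 := by ring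
  have e4 : l + i + (j + 1) = l + i + j + 1 := by ring
  have e5 : l + (i + 1) + j = l + i + j + 1 := by ring
  have e6 : l + (i + 1) = l + i + 1 := by ring
  rw [e1, e2, e3, e4, e5, e6]
  simp only [Nat.factorial_succ, pow_succ]
  push_cast
  field_simp
  ring

/-- coefficients of the recurrence -/
def p2 (l m : ℚ) : ℚ := 4 * (m + 2 - l) * (m + 1) * (m + 2)
def p1 (l m : ℚ) : ℚ := 2 * (m + 1) * (8 * m ^ 2 + 24 * m + 19 - 4 * l ^ 2)
def p0 (l m : ℚ) : ℚ := (m + l + 1) * (4 * m + 3) * (4 * m + 5)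

def sP (l m k : ℚ) : ℚ :=
  4 * (m + 2 - l) * k ^ 2 + (-14 + 4 * l - 20 * m - 8 * m ^ 2) * k +
    (8 + 8 * l + 20 * m + 12 * m * l + 16 * m ^ 2 + 4 * m ^ 2 * l + 4 * m ^ 3)

def F (l i j : ℕ) : ℚ :=
  p2 l (l + i + j) * t l i (j + 2) - p1 l (l + i + j) * t l i (j + 1) + p0 l (l + i + j) * t l i j

def cert (l i j : ℕ) : ℚ :=
  (2 * l + 2 * i + j + 1) * sP l (l + i + j) (l + i + 1) / (j + 1)

lemma t_j' (l i j : ℕ) :
    t l i (j + 1) = t l i j * ((2 * j + 1) * (2 * l + 2 * i + j + 1)) /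
      (2 * (j + 1) * (l + i + j + 1)) := by
  rw [eq_div_iff (by positivity), t_j]

lemma t_i' (l i j : ℕ) :
    t l (i + 1) j = t l i (j + 1) * ((j + 1) * (2 * l + 2 * i + j + 2)) /
      ((2 * j + 1) * (i + 1)) := by
  rw [eq_div_iff (by positivity), t_i]

lemma F_zero (l j : ℕ) : F l 0 j = cert l 0 j * t l 0 j := by
  unfold F cert
  rw [t_j' l 0 (j + 1), t_j' l 0 j]
  unfold p2 p1 p0 sP
  push_cast
  have h1 : (j : ℚ) + 1 ≠ 0 := by positivity
  have h2 : (j : ℚ) + 1 + 1 ≠ 0 := by positivity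
  have h3 : (l : ℚ) + 0 + j + 1 ≠ 0 := by positivity
  have h4 : (l : ℚ) + 0 + (j + 1) + 1 ≠ 0 := by positivity
  field_simp
  ring

lemma F_step (l i j : ℕ) :
    cert l i (j + 1) * t l i (j + 1) + F l (i + 1) j = cert l (i + 1) j * t l (i + 1) j := by
  unfold F cert
  rw [t_j' l (i + 1) (j + 1), t_j' l (i + 1) j, t_i' l i j]
  unfold p2 p1 p0 sP
  push_cast
  have h1 : (j : ℚ) + 1 ≠ 0 := by positivity
  have h2 : (j : ℚ) + 1 + 1 ≠ 0 := by positivity
  have h3 : (l : ℚ) + (i + 1) + j + 1 ≠ 0 := by positivity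
  have h4 : (l : ℚ) + (i + 1) + (j + 1) + 1 ≠ 0 := by positivity
  have h5 : (i : ℚ) + 1 ≠ 0 := by positivity
  have h6 : 2 * (j : ℚ) + 1 ≠ 0 := by positivity
  field_simp
  ring

lemma F_sum (l i : ℕ) : ∀ j, ∑ i' ∈ Finset.range (i + 1), F l i' (i + j - i') =
    cert l i j * t l i j := by
  induction i with
  | zero => intro j; simpa using F_zero l j
  | succ i ih =>
    intro j
    rw [Finset.sum_range_succ]
    have := ih (j + 1)
    have e : ∑ i' ∈ Finset.range (i + 1), F l i' (i + 1 + j - i') =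
        ∑ i' ∈ Finset.range (i + 1), F l i' (i + (j + 1) - i') := by
      apply Finset.sum_congr rfl
      intro x _
      congr 1
      omega
    rw [e, this]
    have e2 : i + 1 + j - (i + 1) = j := by omega
    rw [e2, F_step]

def D (l n : ℕ) : ℚ := ∑ i ∈ Finset.range (n + 1), t l i (n - i)

lemma D_pos (l n : ℕ) : 0 < D l n := by
  unfold D
  exact Finset.sum_pos (fun i _ => t_pos _ _ _) ⟨0, by simp⟩

lemma D_rec (l n : ℕ) :
    p2 l (l + n) * D l (n + 2) - p1 l (l + n) * D l (n + 1) + p0 l (l + n) * D l n = 0 := by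
  have h := F_sum l n 0
  have e0 : ∑ i' ∈ Finset.range (n + 1), F l i' (n + 0 - i') =
      p2 l (l + n) * ∑ i' ∈ Finset.range (n + 1), t l i' (n + 2 - i') -
      p1 l (l + n) * ∑ i' ∈ Finset.range (n + 1), t l i' (n + 1 - i') +
      p0 l (l + n) * ∑ i' ∈ Finset.range (n + 1), t l i' (n - i') := by
    rw [Finset.mul_sum, Finset.mul_sum, Finset.mul_sum, ← Finset.sum_sub_distrib,
      ← Finset.sum_add_distrib]
    apply Finset.sum_congr rfl
    intro i hi
    have hi' : i ≤ n := by simpa [Nat.lt_succ_iff] using hi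
    unfold F
    have c1 : ((l : ℚ) + i + ((n + 0 - i : ℕ) : ℚ)) = l + n := by
      have : n + 0 - i = n - i := by omega
      rw [this, Nat.cast_sub hi']; ring
    rw [c1]
    have c2 : n + 0 - i + 2 = n + 2 - i := by omega
    have c3 : n + 0 - i + 1 = n + 1 - i := by omega
    have c4 : n + 0 - i = n - i := by omega
    rw [c2, c3, c4]
  rw [e0] at h
  have d2 : D l (n + 2) = ∑ i' ∈ Finset.range (n + 1), t l i' (n + 2 - i') + t l (n + 1) 1 +
      t l (n + 2) 0 := by
    unfold D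
    rw [Finset.sum_range_succ, Finset.sum_range_succ]
    have a1 : n + 2 - (n + 1) = 1 := by omega
    have a2 : n + 2 - (n + 1 + 1) = 0 := by omega
    rw [a1, a2]
  have d1 : D l (n + 1) = ∑ i' ∈ Finset.range (n + 1), t l i' (n + 1 - i') + t l (n + 1) 0 := by
    unfold D
    rw [Finset.sum_range_succ]
    have a1 : n + 1 - (n + 1) = 0 := by omega
    rw [a1]
  have d0 : D l n = ∑ i' ∈ Finset.range (n + 1), t l i' (n - i') := rfl
  rw [d2, d1, d0]
  have key : cert l n 0 * t l n 0 + p2 l (l + n) * (t l (n + 1) 1 + t l (n + 2) 0) -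
      p1 l (l + n) * t l (n + 1) 0 = 0 := by
    rw [show t l (n + 2) 0 = t l (n + 1 + 1) 0 from rfl, t_i' l (n + 1) 0,
      show t l (n + 1) (0 + 1) = t l (n + 1) 1 from rfl,
      show t l (n + 1) 1 = t l (n + 1) (0 + 1) from rfl, t_j' l (n + 1) 0, t_i' l n 0,
      t_j' l n 0]
    unfold cert p2 p1 sP
    push_cast
    have h3 : (l : ℚ) + (n + 1) + 0 + 1 ≠ 0 := by positivity
    have h4 : (l : ℚ) + n + 0 + 1 ≠ 0 := by positivity
    have h5 : (n : ℚ) + 1 ≠ 0 := by positivity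
    have h6 : (n : ℚ) + 1 + 1 ≠ 0 := by positivity
    field_simp
    ring
  linarith

lemma bm_eq (l n : ℕ) : bm l (l + n) = D l n := by
  unfold bm D
  rw [Finset.sum_div]
  have : Finset.Icc l (l + n) = (Finset.range (n + 1)).map (addLeftEmbedding l) := by
    ext x
    simp only [Finset.mem_Icc, Finset.mem_map, Finset.mem_range, addLeftEmbedding_apply]
    constructor
    · rintro ⟨h1, h2⟩; exact ⟨x - l, by omega, by omega⟩
    · rintro ⟨y, h1, rfl⟩; omega
  rw [this, Finset.sum_map]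
  apply Finset.sum_congr rfl
  intro i hi
  have hi' : i ≤ n := by simpa [Nat.lt_succ_iff] using hi
  obtain ⟨j, rfl⟩ := Nat.exists_eq_add_of_le hi'
  simp only [addLeftEmbedding_apply]
  have a1 : 2 * (l + (i + j)) - 2 * (l + i) = 2 * j := by omega
  have a2 : l + (i + j) - (l + i) = j := by omega
  have a3 : i + j - i = j := by omega
  rw [a1, a2, a3]
  unfold t
  have b1 : ((2 * j).choose j : ℚ) = (2 * j).factorial / ((j.factorial : ℚ) ^ 2) := by
    rw [Nat.cast_choose ℚ (by omega : j ≤ 2 * j)]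
    have : 2 * j - j = j := by omega
    rw [this, pow_two]
  have b2 : ((l + (i + j) + (l + i)).choose (l + (i + j)) : ℚ) =
      (2 * l + 2 * i + j).factorial / ((l + i + j).factorial * (l + i).factorial) := by
    rw [Nat.cast_choose ℚ (by omega : l + (i + j) ≤ l + (i + j) + (l + i))]
    have e1 : l + (i + j) + (l + i) - (l + (i + j)) = l + i := by omega
    have e2 : l + (i + j) + (l + i) = 2 * l + 2 * i + j := by ring
    have e3 : l + (i + j) = l + i + j := by ring
    rw [e1, e2, e3]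
  have b3 : ((l + i).choose l : ℚ) = (l + i).factorial / (l.factorial * i.factorial) := by
    rw [Nat.cast_choose ℚ (by omega : l ≤ l + i)]
    have : l + i - l = i := by omega
    rw [this]
  rw [b1, b2, b3]
  have c1 : (2 : ℚ) ^ (2 * (l + (i + j))) = 4 ^ (l + i + j) := by
    rw [pow_mul]; norm_num [add_assoc]
  rw [c1]
  have f1 : ((l + i).factorial : ℚ) ≠ 0 := by positivity
  field_simp

lemma bm_pos (l n : ℕ) : 0 < bm l (l + n) := by rw [bm_eq]; exact D_pos l n

lemma bm_rec (l n : ℕ) :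
    p2 l (l + n) * bm l (l + n + 2) - p1 l (l + n) * bm l (l + n + 1) +
      p0 l (l + n) * bm l (l + n) = 0 := by
  have := D_rec l n
  rw [← bm_eq, ← bm_eq, ← bm_eq] at this
  exact this

end V11294.BM
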