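import Mathlib

/-! # Kernel-checked nonnegativity of trivariate integer polynomials on the nonnegative octant -/

namespace V11294.BM

def add1 : List ℤ → List ℤ → List ℤ
  | [], b => b
  | a :: as, [] => a :: as
  | a :: as, b :: bs => (a + b) :: add1 as bs

def smul1 (c : ℤ) : List ℤ → List ℤ
  | [] => []
  | b :: bs => (c * b) :: smul1 c bs

def mul1 : List ℤ → List ℤ → List ℤ
  | [], _ => []
  | a :: as, b => add1 (smul1 a b) (0 :: mul1 as b)

def ev1 (x : ℚ) : List ℤ → ℚ
  | [] => 0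
  | a :: as => (a : ℚ) + x * ev1 x as

def add2 : List (List ℤ) → List (List ℤ) → List (List ℤ)
  | [], b => b
  | a :: as, [] => a :: as
  | a :: as, b :: bs => add1 a b :: add2 as bs

def smul2 (c : List ℤ) : List (List ℤ) → List (List ℤ)
  | [] => []
  | b :: bs => mul1 c b :: smul2 c bs

def mul2 : List (List ℤ) → List (List ℤ) → List (List ℤ)
  | [], _ => []
  | a :: as, b => add2 (smul2 a b) ([] :: mul2 as b)

def ev2 (x y : ℚ) : List (List ℤ) → ℚ
  | [] => 0
  | a :: as => ev1 x a + y * ev2 x y as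

def add3 : List (List (List ℤ)) → List (List (List ℤ)) → List (List (List ℤ))
  | [], b => b
  | a :: as, [] => a :: as
  | a :: as, b :: bs => add2 a b :: add3 as bs

def smul3 (c : List (List ℤ)) : List (List (List ℤ)) → List (List (List ℤ))
  | [] => []
  | b :: bs => mul2 c b :: smul3 c bs

def mul3 : List (List (List ℤ)) → List (List (List ℤ)) → List (List (List ℤ))
  | [], _ => []
  | a :: as, b => add3 (smul3 a b) ([] :: mul3 as b)

def ev3 (x y z : ℚ) : List (List (List ℤ)) → ℚ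
  | [] => 0
  | a :: as => ev2 x y a + z * ev3 x y z as

lemma ev1_add (x : ℚ) : ∀ a b, ev1 x (add1 a b) = ev1 x a + ev1 x b
  | [], b => by simp [add1, ev1]
  | a :: as, [] => by simp [add1, ev1]
  | a :: as, b :: bs => by simp only [add1, ev1, ev1_add x as bs]; push_cast; ring

lemma ev1_smul (x : ℚ) (c : ℤ) : ∀ b, ev1 x (smul1 c b) = c * ev1 x b
  | [] => by simp [smul1, ev1]
  | b :: bs => by simp only [smul1, ev1, ev1_smul x c bs]; push_cast; ring

lemma ev1_mul (x : ℚ) : ∀ a b, ev1 x (mul1 a b) = ev1 x a * ev1 x b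
  | [], b => by simp [mul1, ev1]
  | a :: as, b => by
    simp only [mul1, ev1_add, ev1_smul, ev1, ev1_mul x as b]; push_cast; ring

lemma ev2_add (x y : ℚ) : ∀ a b, ev2 x y (add2 a b) = ev2 x y a + ev2 x y b
  | [], b => by simp [add2, ev2]
  | a :: as, [] => by simp [add2, ev2]
  | a :: as, b :: bs => by simp only [add2, ev2, ev1_add, ev2_add x y as bs]; ring

lemma ev2_smul (x y : ℚ) (c : List ℤ) : ∀ b, ev2 x y (smul2 c b) = ev1 x c * ev2 x y b
  | [] => by simp [smul2, ev2]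
  | b :: bs => by simp only [smul2, ev2, ev1_mul, ev2_smul x y c bs]; ring

lemma ev2_mul (x y : ℚ) : ∀ a b, ev2 x y (mul2 a b) = ev2 x y a * ev2 x y b
  | [], b => by simp [mul2, ev2]
  | a :: as, b => by
    simp only [mul2, ev2_add, ev2_smul, ev2, ev1, ev2_mul x y as b]; ring

lemma ev3_add (x y z : ℚ) : ∀ a b, ev3 x y z (add3 a b) = ev3 x y z a + ev3 x y z b
  | [], b => by simp [add3, ev3]
  | a :: as, [] => by simp [add3, ev3]
  | a :: as, b :: bs => by simp only [add3, ev3, ev2_add, ev3_add x y z as bs]; ring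

lemma ev3_smul (x y z : ℚ) (c : List (List ℤ)) :
    ∀ b, ev3 x y z (smul3 c b) = ev2 x y c * ev3 x y z b
  | [] => by simp [smul3, ev3]
  | b :: bs => by simp only [smul3, ev3, ev2_mul, ev3_smul x y z c bs]; ring

lemma ev3_mul (x y z : ℚ) : ∀ a b, ev3 x y z (mul3 a b) = ev3 x y z a * ev3 x y z b
  | [], b => by simp [mul3, ev3]
  | a :: as, b => by
    simp only [mul3, ev3_add, ev3_smul, ev3, ev2, ev3_mul x y z as b]; ring

def nn1 : List ℤ → Bool
  | [] => true
  | a :: as => (decide (0 ≤ a)) && nn1 as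

def nn2 : List (List ℤ) → Bool
  | [] => true
  | a :: as => nn1 a && nn2 as

def nn3 : List (List (List ℤ)) → Bool
  | [] => true
  | a :: as => nn2 a && nn3 as

lemma ev1_nonneg {x : ℚ} (hx : 0 ≤ x) : ∀ a, nn1 a = true → 0 ≤ ev1 x a
  | [], _ => by simp [ev1]
  | a :: as, h => by
    simp only [nn1, Bool.and_eq_true, decide_eq_true_eq] at h
    have := ev1_nonneg hx as h.2
    have h1 : (0 : ℚ) ≤ a := by exact_mod_cast h.1
    simp only [ev1]; positivity

lemma ev2_nonneg {x y : ℚ} (hx : 0 ≤ x) (hy : 0 ≤ y) : ∀ a, nn2 a = true → 0 ≤ ev2 x y a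
  | [], _ => by simp [ev2]
  | a :: as, h => by
    simp only [nn2, Bool.and_eq_true] at h
    have := ev2_nonneg hx hy as h.2
    have h1 := ev1_nonneg hx a h.1
    simp only [ev2]; positivity

lemma ev3_nonneg {x y z : ℚ} (hx : 0 ≤ x) (hy : 0 ≤ y) (hz : 0 ≤ z) :
    ∀ a, nn3 a = true → 0 ≤ ev3 x y z a
  | [], _ => by simp [ev3]
  | a :: as, h => by
    simp only [nn3, Bool.and_eq_true] at h
    have := ev3_nonneg hx hy hz as h.2
    have h1 := ev2_nonneg hx hy a h.1
    simp only [ev3]; positivity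

/-- polynomial expressions in three variables -/
inductive E
  | n : E
  | k : E
  | s : E
  | c : ℤ → E
  | add : E → E → E
  | mul : E → E → E

def E.toL : E → List (List (List ℤ))
  | .n => [[[0, 1]]]
  | .k => [[[], [1]]]
  | .s => [[], [[1]]]
  | .c a => [[[a]]]
  | .add a b => add3 a.toL b.toL
  | .mul a b => mul3 a.toL b.toL

def E.ev (x y z : ℚ) : E → ℚ
  | .n => x
  | .k => y
  | .s => z
  | .c a => a
  | .add a b => a.ev x y z + b.ev x y z
  | .mul a b => a.ev x y z * b.ev x y z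

lemma E.ev_toL (x y z : ℚ) : ∀ e : E, ev3 x y z e.toL = e.ev x y z
  | .n => by simp [E.toL, ev3, ev2, ev1, E.ev]
  | .k => by simp [E.toL, ev3, ev2, ev1, E.ev]
  | .s => by simp [E.toL, ev3, ev2, ev1, E.ev]
  | .c a => by simp [E.toL, ev3, ev2, ev1, E.ev]
  | .add a b => by simp [E.toL, ev3_add, E.ev, E.ev_toL x y z a, E.ev_toL x y z b]
  | .mul a b => by simp [E.toL, ev3_mul, E.ev, E.ev_toL x y z a, E.ev_toL x y z b]

theorem E.nonneg (e : E) (h : nn3 e.toL = true) {x y z : ℚ} (hx : 0 ≤ x) (hy : 0 ≤ y)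
    (hz : 0 ≤ z) : 0 ≤ e.ev x y z := by
  rw [← E.ev_toL]; exact ev3_nonneg hx hy hz _ h

instance : Add E := ⟨E.add⟩
instance : Mul E := ⟨E.mul⟩
instance : Neg E := ⟨fun a => E.mul (E.c (-1)) a⟩
instance : Sub E := ⟨fun a b => E.add a (E.mul (E.c (-1)) b)⟩

@[simp] lemma ev_add (x y z : ℚ) (a b : E) : (a + b).ev x y z = a.ev x y z + b.ev x y z := rfl
@[simp] lemma ev_mul (x y z : ℚ) (a b : E) : (a * b).ev x y z = a.ev x y z * b.ev x y z := rfl
@[simp] lemma ev_sub (x y z : ℚ) (a b : E) : (a - b).ev x y z = a.ev x y z - b.ev x y z := by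
  change a.ev x y z + ((-1 : ℤ) : ℚ) * b.ev x y z = _
  push_cast; ring
@[simp] lemma ev_n (x y z : ℚ) : E.n.ev x y z = x := rfl
@[simp] lemma ev_k (x y z : ℚ) : E.k.ev x y z = y := rfl
@[simp] lemma ev_s (x y z : ℚ) : E.s.ev x y z = z := rfl
@[simp] lemma ev_c (x y z : ℚ) (a : ℤ) : (E.c a).ev x y z = a := rfl

def E.pw (a : E) : ℕ → E
  | 0 => E.c 1
  | Nat.succ j => E.mul a (E.pw a j)

@[simp] lemma ev_pw (x y z : ℚ) (a : E) (j : ℕ) : (a.pw j).ev x y z = (a.ev x y z) ^ j := by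
  induction j with
  | zero => simp [E.pw]
  | succ j ih =>
    change a.ev x y z * (a.pw j).ev x y z = _
    rw [ih]; ring

/-! ### the polynomials -/

namespace Gp
open E
def l : E := k + c 1
def M : E := n + l + c 3
def M1 : E := M - c 1
def M2 : E := M - c 2
def P (M : E) : E := c 8 * M * M + c 8 * M + c 3 - c 4 * l * l
def R (M : E) : E := (M - l) * (M + l)
def S (M : E) : E := c 16 * M * M - c 1
def D (M : E) : E := c 16 * l * l + c 8 * M
def N (M : E) : E := D M - c 3 + s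
def N0 (M : E) : E := D M - c 3
/-- `P₁ (N+s) - 4 R₁ D` -/
def U : E := P M1 * N M1 - c 4 * R M1 * D M1
def A : E := c 256 * (M2 + l) * S M2 * (M1 * (M1 - l)).pw 3 * (M + c 1) * (M + c 1 - l)
def B : E := (M * (M - l)).pw 3 * M2 * (S M1).pw 3
def T1 : E := (D M1).pw 4 * A * U.pw 4
def T2 : E := B * ((c 4 * P M2 * D M1 - S M1 * N M1) *
  (((P M * P M1 - R M * S M) * N M1 - c 4 * P M * R M1 * D M1) * (N M1).pw 6))
def G : E := T1 - T2
end Gp

set_option maxRecDepth 100000 in
theorem G_nn : nn3 Gp.G.toL = true := by decide +kernel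

end V11294.BM
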