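import Mathlib
import Pool.Agent.V11294.BM.Rec
import Pool.Agent.V11294.BM.Refl

namespace V11294.BM

/-- consecutive ratio -/
def r (l n : ℕ) : ℚ := bm l (l + n + 1) / bm l (l + n)

lemma r_pos (l n : ℕ) : 0 < r l n := by
  unfold r
  have h1 := bm_pos l n
  have h2 := bm_pos l (n + 1)
  rw [show l + (n + 1) = l + n + 1 from rfl] at h2
  positivity

/-- rational functions of `M, l` -/
def Pq (l M : ℚ) : ℚ := 8 * M * M + 8 * M + 3 - 4 * l * l
def Rq (l M : ℚ) : ℚ := (M - l) * (M + l)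
def Sq (M : ℚ) : ℚ := 16 * M * M - 1
def Dq (l M : ℚ) : ℚ := 16 * l * l + 8 * M

/-- normalised ratio, `M = l+n+1` -/
def v (l n : ℕ) : ℚ := 8 * (l + n + 1) * (n + 1) / Sq (l + n + 1) * r l n

lemma Sq_pos {M : ℚ} (h : 1 ≤ M) : 0 < Sq M := by
  unfold Sq; nlinarith

lemma v_pos (l n : ℕ) : 0 < v l n := by
  unfold v
  have := r_pos l n
  have h2 : 0 < Sq ((l : ℚ) + n + 1) := Sq_pos (by
    have : (0 : ℚ) ≤ l := by positivity
    have : (0 : ℚ) ≤ n := by positivity
    linarith)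
  positivity

lemma r_eq (l n : ℕ) : r l n = Sq (l + n + 1) * v l n / (8 * (l + n + 1) * (n + 1)) := by
  unfold v
  have h2 : 0 < Sq ((l : ℚ) + n + 1) := Sq_pos (by
    have : (0 : ℚ) ≤ l := by positivity
    have : (0 : ℚ) ≤ n := by positivity
    linarith)
  field_simp

lemma r_rec (l n : ℕ) :
    p2 l (l + n) * (r l (n + 1) * r l n) - p1 l (l + n) * r l n + p0 l (l + n) = 0 := by
  have h := bm_rec l n
  have h0 := bm_pos l n
  have h1 := bm_pos l (n + 1)
  rw [show l + (n + 1) = l + n + 1 from rfl] at h1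
  unfold r
  rw [show l + (n + 1) + 1 = l + n + 2 by ring, show l + (n + 1) = l + n + 1 by ring]
  have e : bm l (l + n + 2) / bm l (l + n + 1) * (bm l (l + n + 1) / bm l (l + n)) =
    bm l (l + n + 2) / bm l (l + n) := by
    field_simp
  rw [e]
  have : p2 l (l + n) * (bm l (l + n + 2) / bm l (l + n)) -
      p1 l (l + n) * (bm l (l + n + 1) / bm l (l + n)) + p0 l (l + n) =
      (p2 l (l + n) * bm l (l + n + 2) - p1 l (l + n) * bm l (l + n + 1) +
      p0 l (l + n) * bm l (l + n)) / bm l (l + n) := by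
    field_simp
  rw [this, h, zero_div]

lemma v_rec (l n : ℕ) :
    Sq (l + n + 2) * v l (n + 1) / 4 * v l n =
      Pq l (l + n + 1) * v l n - 4 * Rq l (l + n + 1) := by
  have h := r_rec l n
  rw [r_eq l n, r_eq l (n + 1)] at h
  push_cast at h
  have hS : 0 < Sq ((l : ℚ) + n + 1) := Sq_pos (by
    have : (0 : ℚ) ≤ l := by positivity
    have : (0 : ℚ) ≤ n := by positivity
    linarith)
  have e : (l : ℚ) + (n + 1) + 1 = l + n + 2 := by ring
  rw [e] at h
  generalize v l n = a at *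
  generalize v l (n + 1) = b at *
  generalize hq : Sq ((l : ℚ) + n + 2) = q at *
  have h3 : Sq ((l : ℚ) + n + 1) ≠ 0 := hS.ne'
  have key : (Sq ((l : ℚ) + n + 1) / 8 / (n + 1)) *
    (q * b / 4 * a - (Pq l (l + n + 1) * a - 4 * Rq l (l + n + 1))) * 4 / 2 = 0 := by
    rw [← h]
    unfold p2 p1 p0 Pq Rq
    have h5 : (n : ℚ) + 1 ≠ 0 := by positivity
    have h6 : (n : ℚ) + 1 + 1 ≠ 0 := by positivity
    have h7 : (l : ℚ) + n + 1 ≠ 0 := by positivity
    have h8 : (l : ℚ) + n + 2 ≠ 0 := by positivity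
    unfold Sq
    field_simp
    ring
  have h5 : (0 : ℚ) < (n : ℚ) + 1 := by positivity
  have : (q * b / 4 * a - (Pq l (l + n + 1) * a - 4 * Rq l (l + n + 1))) = 0 := by
    have h9 : (Sq ((l : ℚ) + n + 1) / 8 / (n + 1)) ≠ 0 := by positivity
    have h10 : (Sq ((l : ℚ) + n + 1) / 8 / (n + 1)) *
      (q * b / 4 * a - (Pq l (l + n + 1) * a - 4 * Rq l (l + n + 1))) = 0 := by linarith
    exact (mul_eq_zero.mp h10).resolve_left h9
  linarith

lemma r_zero (l : ℕ) : r l 0 = (2 * l + 1) * (2 * l + 3) / (2 * (l + 1)) := by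
  unfold r
  have e1 : bm l (l + 0 + 1) = D l 1 := bm_eq l 1
  rw [e1, bm_eq]
  have h0 := t_pos l 0 0
  have d1 : D l 1 = t l 0 1 + t l 1 0 := by
    unfold D; simp [Finset.sum_range_succ]
  have d0 : D l 0 = t l 0 0 := by
    unfold D; simp
  have a1 := t_j' l 0 0
  have a2 := t_i' l 0 0
  simp only [zero_add] at a1 a2
  rw [d1, d0, a2, a1]
  push_cast
  field_simp
  ring

lemma v_lower (l : ℕ) (hl : 1 ≤ l) (n : ℕ) : 1 - 3 / Dq l (l + n + 1) ≤ v l n := by
  have hl' : (1 : ℚ) ≤ l := by exact_mod_cast hl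
  induction n with
  | zero =>
    unfold v
    rw [r_zero]
    unfold Dq Sq
    have hS : (0 : ℚ) < 16 * (l + 1) * (l + 1) - 1 := by nlinarith
    have hD : (0 : ℚ) < 16 * l * l + 8 * (l + 1) := by positivity
    push_cast
    rw [show (l : ℚ) + 0 + 1 = l + 1 by ring]
    have hSe : 16 * ((l : ℚ) + 1) * (l + 1) - 1 = (4 * l + 3) * (4 * l + 5) := by ring
    rw [hSe] at hS ⊢
    have : 8 * ((l : ℚ) + 1) * (0 + 1) / ((4 * l + 3) * (4 * l + 5)) *
        ((2 * l + 1) * (2 * l + 3) / (2 * (l + 1))) - (1 - 3 / (16 * l * l + 8 * (l + 1))) =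
        3 * (24 * (l : ℚ) + 7) / (((4 * l + 3) * (4 * l + 5)) *
          (16 * l * l + 8 * (l + 1))) := by
      field_simp
      ring
    have h2 : 0 ≤ 3 * (24 * (l : ℚ) + 7) / (((4 * l + 3) * (4 * l + 5)) *
          (16 * l * l + 8 * (l + 1))) := by
      apply div_nonneg
      · linarith
      · positivity
    linarith
  | succ n ih =>
    have hn : (0 : ℚ) ≤ n := by positivity
    have hv := v_rec l n
    have hp := v_pos l n
    have hS : 0 < Sq ((l : ℚ) + n + 2) := Sq_pos (by linarith)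
    have hR : 0 ≤ Rq l ((l : ℚ) + n + 1) := by
      unfold Rq
      have : (0 : ℚ) ≤ l + n + 1 - l := by linarith
      positivity
    set a := v l n with ha
    set b := v l (n + 1) with hb
    push_cast
    rw [show (l : ℚ) + (n + 1) + 1 = l + n + 2 by ring]
    -- the lower bound `L`
    set L := 1 - 3 / Dq l ((l : ℚ) + n + 1) with hL
    have hD : (16 : ℚ) < Dq l ((l : ℚ) + n + 1) := by unfold Dq; nlinarith
    have hLpos : 0 < L := by
      rw [hL]
      have : 3 / Dq l ((l : ℚ) + n + 1) < 1 := by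
        rw [div_lt_one (by linarith)]; linarith
      linarith
    have hb' : Sq ((l : ℚ) + n + 2) / 4 * b = Pq l (l + n + 1) - 4 * Rq l (l + n + 1) / a := by
      field_simp
      linarith
    have h1 : 4 * Rq l ((l : ℚ) + n + 1) / a ≤ 4 * Rq l ((l : ℚ) + n + 1) / L := by
      apply div_le_div_of_nonneg_left _ hLpos ih
      positivity
    have h2 : Sq ((l : ℚ) + n + 2) / 4 * (1 - 3 / Dq l ((l : ℚ) + n + 2)) ≤
        Pq l (l + n + 1) - 4 * Rq l (l + n + 1) / L := by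
      have hL2 : L = (Dq l ((l : ℚ) + n + 1) - 3) / Dq l ((l : ℚ) + n + 1) := by
        rw [hL]; field_simp
      rw [hL2]
      have hD3 : 0 < Dq l ((l : ℚ) + n + 1) - 3 := by linarith
      have hD0 : 0 < Dq l ((l : ℚ) + n + 1) := by linarith
      have hD1 : 0 < Dq l ((l : ℚ) + n + 2) := by unfold Dq; nlinarith
      have key : 0 ≤ 4 * Dq l ((l : ℚ) + n + 2) * (Pq l (l + n + 1) *
          (Dq l ((l : ℚ) + n + 1) - 3) - 4 * Rq l (l + n + 1) * Dq l ((l : ℚ) + n + 1)) -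
          (Dq l ((l : ℚ) + n + 2) - 3) * Sq ((l : ℚ) + n + 2) *
            (Dq l ((l : ℚ) + n + 1) - 3) := by
        obtain ⟨y, hy⟩ : ∃ y : ℚ, (l : ℚ) = y + 1 := ⟨l - 1, by ring⟩
        have hy0 : 0 ≤ y := by linarith
        rw [hy]
        unfold Dq Pq Rq Sq
        generalize (n : ℚ) = x at *
        ring_nf
        positivity
      have e : Pq l (l + n + 1) - 4 * Rq l (l + n + 1) /
          ((Dq l ((l : ℚ) + n + 1) - 3) / Dq l ((l : ℚ) + n + 1)) -
          Sq ((l : ℚ) + n + 2) / 4 * (1 - 3 / Dq l ((l : ℚ) + n + 2)) =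
          (4 * Dq l ((l : ℚ) + n + 2) * (Pq l (l + n + 1) *
          (Dq l ((l : ℚ) + n + 1) - 3) - 4 * Rq l (l + n + 1) * Dq l ((l : ℚ) + n + 1)) -
          (Dq l ((l : ℚ) + n + 2) - 3) * Sq ((l : ℚ) + n + 2) *
            (Dq l ((l : ℚ) + n + 1) - 3)) / (4 * Dq l ((l : ℚ) + n + 2) *
            (Dq l ((l : ℚ) + n + 1) - 3)) := by
        generalize Dq l ((l : ℚ) + n + 2) = d1 at *
        generalize Dq l ((l : ℚ) + n + 1) = d0 at *
        generalize Pq l ((l : ℚ) + n + 1) = p at *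
        generalize Rq l ((l : ℚ) + n + 1) = q at *
        generalize Sq ((l : ℚ) + n + 2) = s at *
        have : d0 - 3 ≠ 0 := hD3.ne'
        field_simp
      have : 0 ≤ Pq l (l + n + 1) - 4 * Rq l (l + n + 1) /
          ((Dq l ((l : ℚ) + n + 1) - 3) / Dq l ((l : ℚ) + n + 1)) -
          Sq ((l : ℚ) + n + 2) / 4 * (1 - 3 / Dq l ((l : ℚ) + n + 2)) := by
        rw [e]
        exact div_nonneg key (by positivity)
      linarith
    have h3 : Sq ((l : ℚ) + n + 2) / 4 * (1 - 3 / Dq l ((l : ℚ) + n + 2)) ≤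
        Sq ((l : ℚ) + n + 2) / 4 * b := by
      rw [hb']; linarith
    exact le_of_mul_le_mul_left h3 (by positivity)

/-- the polynomial inequality behind the theorem -/
lemma poly_ineq (l n : ℕ) (hl : 1 ≤ l) (w : ℚ)
    (hw : 1 - 3 / Dq l (l + n + 2) ≤ w) :
    let L : ℚ := l
    let M : ℚ := l + n + 3
    ((M * (M - L)) ^ 3 * (M - 2) * (Sq (M - 1)) ^ 3) *
      ((4 * Pq L (M - 2) - Sq (M - 1) * w) *
      (((Pq L M * Pq L (M - 1) - Rq L M * Sq M) * w - 4 * Pq L M * Rq L (M - 1)) * w ^ 6)) ≤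
      (256 * (M - 2 + L) * Sq (M - 2) * ((M - 1) * (M - 1 - L)) ^ 3 * (M + 1) * (M + 1 - L)) *
        (Pq L (M - 1) * w - 4 * Rq L (M - 1)) ^ 4 := by
  intro L M
  have hl' : (1 : ℚ) ≤ L := by show (1 : ℚ) ≤ (l : ℚ); exact_mod_cast hl
  have hn : (0 : ℚ) ≤ n := by positivity
  have hM : (l : ℚ) + n + 2 = M - 1 := by simp only [M]; ring
  rw [hM] at hw
  have hDpos : 0 < Dq L (M - 1) := by
    unfold Dq
    have : 0 < M - 1 := by rw [← hM]; positivity
    nlinarith
  set x : ℚ := (n : ℚ) with hx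
  set y : ℚ := L - 1 with hy
  set z : ℚ := w * Dq L (M - 1) - (Dq L (M - 1) - 3) with hz
  have hz0 : 0 ≤ z := by
    have : (1 - 3 / Dq L (M - 1)) * Dq L (M - 1) ≤ w * Dq L (M - 1) :=
      mul_le_mul_of_nonneg_right hw hDpos.le
    have e : (1 - 3 / Dq L (M - 1)) * Dq L (M - 1) = Dq L (M - 1) - 3 := by field_simp
    rw [e] at this
    rw [hz]; linarith
  have h := E.nonneg Gp.G G_nn (x := x) (y := y) (z := z) hn (by rw [hy]; linarith) hz0
  have el : Gp.l.ev x y z = L := by simp [Gp.l, hy]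
  have eM : Gp.M.ev x y z = M := by
    unfold Gp.M
    simp only [ev_add, ev_n, ev_c, el]
    simp only [M, L, hx]; push_cast; ring
  have eM1 : Gp.M1.ev x y z = M - 1 := by
    unfold Gp.M1; simp only [ev_sub, ev_c, eM]; push_cast; ring
  have eM2 : Gp.M2.ev x y z = M - 2 := by
    unfold Gp.M2; simp only [ev_sub, ev_c, eM]; push_cast; ring
  have eP : ∀ e : E, (Gp.P e).ev x y z = Pq L (e.ev x y z) := by
    intro e; unfold Gp.P Pq; simp only [ev_add, ev_sub, ev_mul, ev_c, el]; push_cast; ring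
  have eR : ∀ e : E, (Gp.R e).ev x y z = Rq L (e.ev x y z) := by
    intro e; unfold Gp.R Rq; simp only [ev_add, ev_sub, ev_mul, el]
  have eS : ∀ e : E, (Gp.S e).ev x y z = Sq (e.ev x y z) := by
    intro e; unfold Gp.S Sq; simp only [ev_sub, ev_mul, ev_c]; push_cast; ring
  have eD : ∀ e : E, (Gp.D e).ev x y z = Dq L (e.ev x y z) := by
    intro e; unfold Gp.D Dq; simp only [ev_add, ev_mul, ev_c, el]; push_cast; ring
  have eN : (Gp.N Gp.M1).ev x y z = w * Dq L (M - 1) := by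
    unfold Gp.N; simp only [ev_add, ev_sub, ev_c, ev_s, eD, eM1]; push_cast; rw [hz]; ring
  have eU : Gp.U.ev x y z = Dq L (M - 1) * (Pq L (M - 1) * w - 4 * Rq L (M - 1)) := by
    unfold Gp.U; simp only [ev_sub, ev_mul, ev_c, eP, eN, eR, eD, eM1]; push_cast; ring
  have eA : Gp.A.ev x y z =
      256 * (M - 2 + L) * Sq (M - 2) * ((M - 1) * (M - 1 - L)) ^ 3 * (M + 1) * (M + 1 - L) := by
    unfold Gp.A
    simp only [ev_add, ev_sub, ev_mul, ev_c, ev_pw, eS, eM, eM1, eM2, el]; push_cast; rfl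
  have eB : Gp.B.ev x y z = (M * (M - L)) ^ 3 * (M - 2) * (Sq (M - 1)) ^ 3 := by
    unfold Gp.B
    simp only [ev_sub, ev_mul, ev_pw, eS, eM, eM1, eM2, el]
  unfold Gp.G Gp.T1 Gp.T2 at h
  simp only [ev_sub, ev_mul, ev_c, ev_pw, eA, eB, eU, eP, eR, eS, eD, eN, eM, eM1, eM2] at h
  push_cast at h
  generalize (256 * (M - 2 + L) * Sq (M - 2) * ((M - 1) * (M - 1 - L)) ^ 3 * (M + 1) *
    (M + 1 - L)) = A0 at *
  generalize (M * (M - L)) ^ 3 * (M - 2) * (Sq (M - 1)) ^ 3 = B0 at *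
  generalize Pq L (M - 2) = P2 at *
  generalize Pq L (M - 1) = P1 at *
  generalize Rq L (M - 1) = R1 at *
  generalize Sq (M - 1) = S1 at *
  generalize Pq L M = P0 at *
  generalize Rq L M = R0 at *
  generalize Sq M = S0 at *
  generalize Dq L (M - 1) = d at *
  have h8 : 0 < d ^ 8 := by positivity
  have : 0 ≤ d ^ 8 * (A0 * (P1 * w - 4 * R1) ^ 4 - B0 * ((4 * P2 - S1 * w) *
      (((P0 * P1 - R0 * S0) * w - 4 * P0 * R1) * w ^ 6))) := by
    refine h.trans (le_of_eq ?_)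
    ring
  have := nonneg_of_mul_nonneg_right this h8
  linarith

/-- the ratio inequality equivalent to the theorem -/
lemma r_ineq (l n : ℕ) (hl : 1 ≤ l) :
    r l (n + 1) ^ 3 * r l (n + 3) ≤ r l (n + 2) ^ 3 * r l n := by
  have hl' : (1 : ℚ) ≤ l := by exact_mod_cast hl
  have hn : (0 : ℚ) ≤ n := by positivity
  have hlow := v_lower l hl (n + 1)
  have e1 := v_rec l n
  have e2 := v_rec l (n + 1)
  have e3 := v_rec l (n + 2)
  have q0 := v_pos l n
  have q1 := v_pos l (n + 1)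
  have q2 := v_pos l (n + 2)
  have q3 := v_pos l (n + 3)
  rw [r_eq l n, r_eq l (n + 1), r_eq l (n + 2), r_eq l (n + 3)]
  push_cast at *
  rw [show (l : ℚ) + (n + 1) + 1 = l + n + 2 by ring] at *
  rw [show (l : ℚ) + (n + 1) + 2 = l + n + 3 by ring] at e2
  rw [show (l : ℚ) + (n + 2) + 1 = l + n + 3 by ring] at *
  rw [show (l : ℚ) + (n + 2) + 2 = l + n + 4 by ring] at e3
  rw [show (l : ℚ) + (n + 3) + 1 = l + n + 4 by ring] at *
  have hp := poly_ineq l n hl (v l (n + 1)) hlow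
  dsimp only at hp
  rw [show (l : ℚ) + n + 3 - 1 = l + n + 2 by ring, show (l : ℚ) + n + 3 - 2 = l + n + 1 by ring,
    show (l : ℚ) + n + 3 - l = n + 3 by ring, show (l : ℚ) + n + 2 - l = n + 2 by ring,
    show (l : ℚ) + n + 3 + 1 = l + n + 4 by ring, show (l : ℚ) + n + 4 - l = n + 4 by ring] at hp
  have hS2 : 0 < Sq ((l : ℚ) + n + 1) := Sq_pos (by linarith)
  have hS1 : 0 < Sq ((l : ℚ) + n + 2) := Sq_pos (by linarith)
  have hS0 : 0 < Sq ((l : ℚ) + n + 3) := Sq_pos (by linarith)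
  have hSm : 0 < Sq ((l : ℚ) + n + 4) := Sq_pos (by linarith)
  have hR2 : Rq (l : ℚ) (l + n + 1) = (n + 1) * (l + n + 1 + l) := by unfold Rq; ring
  rw [hR2] at e1
  generalize v l n = v0 at *
  generalize v l (n + 1) = w at *
  generalize v l (n + 2) = v2 at *
  generalize v l (n + 3) = v3 at *
  generalize Sq ((l : ℚ) + n + 1) = S2 at *
  generalize Sq ((l : ℚ) + n + 2) = S1 at *
  generalize Sq ((l : ℚ) + n + 3) = S0 at *
  generalize Sq ((l : ℚ) + n + 4) = Sm at *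
  generalize Pq (l : ℚ) (l + n + 1) = P2 at *
  generalize Pq (l : ℚ) (l + n + 2) = P1 at *
  generalize Pq (l : ℚ) (l + n + 3) = P0 at *
  generalize Rq (l : ℚ) (l + n + 2) = R1 at *
  generalize Rq (l : ℚ) (l + n + 3) = R0 at *
  clear hlow hR2
  have hU : P1 * w - 4 * R1 = S0 * v2 / 4 * w := by linarith
  have hX : (P0 * P1 - R0 * S0) * w - 4 * P0 * R1 = (Sm * v3 / 4) * (S0 * v2 / 4) * w := by
    linear_combination P0 * hU - S0 / 4 * w * e3
  have hZ : S2 * v0 / 4 * (4 * P2 - S1 * w) = 4 * ((n + 1) * (l + n + 1 + l)) * S2 := by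
    linear_combination - S2 * e1
  rw [hU, hX] at hp
  have hW2 : 0 < S2 * v0 / 4 := by positivity
  generalize hWm : Sm * v3 / 4 = Wm at *
  generalize hW0 : S0 * v2 / 4 = W0 at *
  generalize hW2' : S2 * v0 / 4 = W2 at *
  have hWmpos : 0 < Wm := by rw [← hWm]; positivity
  have hW0pos : 0 < W0 := by rw [← hW0]; positivity
  have f1 : Sm * v3 = 4 * Wm := by linarith
  have f2 : S0 * v2 = 4 * W0 := by linarith
  have f3 : S2 * v0 = 4 * W2 := by linarith
  rw [f1, f2, f3]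
  clear e1 e2 e3 hWm hW0 hW2' f1 f2 f3 hU hX
  have hl0 : (0 : ℚ) < l := by linarith
  have key : ((l + n + 3) * (n + 3)) ^ 3 * (l + n + 1) * S1 ^ 3 * (n + 1) * Wm * w ^ 3 ≤
      64 * ((l + n + 2) * (n + 2)) ^ 3 * (l + n + 4) * (n + 4) * W0 ^ 3 * W2 := by
    have hc : 0 < 4 * ((l : ℚ) + n + 1 + l) * S2 * W0 * w ^ 4 := by positivity
    refine le_of_mul_le_mul_left ?_ hc
    have h1 := mul_le_mul_of_nonneg_left hp hW2.le
    refine le_trans (le_of_eq ?_) (le_trans h1 (le_of_eq ?_))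
    · linear_combination (-(((l + n + 3) * (n + 3)) ^ 3 * (l + n + 1) * S1 ^ 3 *
        (Wm * W0 * w) * w ^ 6)) * hZ
    · ring
  have g1 : (0 : ℚ) < n + 1 := by positivity
  have e : (4 * W0 / (8 * (l + n + 3) * (n + 2 + 1))) ^ 3 *
      (4 * W2 / (8 * (l + n + 1) * (n + 1))) -
      (S1 * w / (8 * (l + n + 2) * (n + 1 + 1))) ^ 3 *
      (4 * Wm / (8 * (l + n + 4) * (n + 3 + 1))) =
      (64 * ((l + n + 2) * (n + 2)) ^ 3 * (l + n + 4) * (n + 4) * W0 ^ 3 * W2 -
      ((l + n + 3) * (n + 3)) ^ 3 * (l + n + 1) * S1 ^ 3 * (n + 1) * Wm * w ^ 3) /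
      (1024 * ((l + n + 2) * (n + 2)) ^ 3 * (l + n + 4) * (n + 4) *
      ((l + n + 3) * (n + 3)) ^ 3 * (l + n + 1) * (n + 1)) := by
    rw [show (n : ℚ) + 2 + 1 = n + 3 by ring, show (n : ℚ) + 1 + 1 = n + 2 by ring,
      show (n : ℚ) + 3 + 1 = n + 4 by ring]
    field_simp
    ring
  have : 0 ≤ (4 * W0 / (8 * (l + n + 3) * (n + 2 + 1))) ^ 3 *
      (4 * W2 / (8 * (l + n + 1) * (n + 1))) -
      (S1 * w / (8 * (l + n + 2) * (n + 1 + 1))) ^ 3 *
      (4 * Wm / (8 * (l + n + 4) * (n + 3 + 1))) := by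
    rw [e]
    apply div_nonneg (by linarith) (by positivity)
  linarith

/-- The fourth-order inequality for consecutive Boros–Moll numbers. -/
lemma bm_ineq (l n : ℕ) (hl : 1 ≤ l) :
    bm l (l + n) * bm l (l + n + 4) * bm l (l + n + 2) ^ 6 ≤
      bm l (l + n + 1) ^ 4 * bm l (l + n + 3) ^ 4 := by
  have h := r_ineq l n hl
  unfold r at h
  have a0 := bm_pos l n
  have a1 := bm_pos l (n + 1)
  have a2 := bm_pos l (n + 2)
  have a3 := bm_pos l (n + 3)
  have a4 := bm_pos l (n + 4)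
  rw [show l + (n + 1) = l + n + 1 by ring] at *
  rw [show l + (n + 2) = l + n + 2 by ring] at *
  rw [show l + (n + 3) = l + n + 3 by ring] at *
  rw [show l + (n + 4) = l + n + 4 by ring] at *
  rw [show l + n + 1 + 1 = l + n + 2 by ring, show l + n + 2 + 1 = l + n + 3 by ring,
    show l + n + 3 + 1 = l + n + 4 by ring] at h
  generalize bm l (l + n) = b0 at *
  generalize bm l (l + n + 1) = b1 at *
  generalize bm l (l + n + 2) = b2 at *
  generalize bm l (l + n + 3) = b3 at *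
  generalize bm l (l + n + 4) = b4 at *
  rw [div_pow, div_pow, div_mul_div_comm, div_mul_div_comm,
    div_le_div_iff₀ (by positivity) (by positivity)] at h
  -- b2^3*b4*(b2^3*b0) ≤ b3^3*b1*(b1^3*b3)
  nlinarith [h]

end V11294.BM

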